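import Pool.Agent.Run7.h896.CF.WM
import Pool.Agent.Run7.h172.Nls.Sup

/-! Exponential sums, windows, and polynomials in a unitary. -/

set_option autoImplicit false

open Finset Filter Topology MeasureTheory
open scoped InnerProductSpace

namespace Run7.h896.CF

open Pool.Agent.H807R2.Dav (ee norm_ee ee_add ee_int ee_pow ee_zero)
open Pool.Agent.H373R2.T7 (SupSmall orth ev_L')
open Pool.Agent.W24.Katai (Mul1)
open Pool.Agent.TH823.MRS (ExpoSmall)
open Pool.Agent.TH261.AB (block_sum vav vav_norm tendsto_vav_iff)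

/-- exponential sums over initial segments -/
theorem sup_range {h : ℕ → ℂ} (hsup : SupSmall h) (hb : ∀ n, ‖h n‖ ≤ 1) (ε : ℝ) (hε : 0 < ε) :
    ∃ N0 : ℕ, ∀ N : ℕ, N0 ≤ N → ∀ α : ℝ, ‖∑ n ∈ range N, h n * ee ((n : ℝ) * α)‖ ≤ ε * N := by
  obtain ⟨N1, h1⟩ := hsup 1
  obtain ⟨N2, h2⟩ := ev_L' (2 / ε)
  obtain ⟨N3, h3⟩ := exists_nat_ge (2 / ε)
  refine ⟨N1 + N2 + N3 + 2, fun N hN α => ?_⟩
  obtain ⟨M, rfl⟩ : ∃ M, N = M + 1 := ⟨N - 1, by omega⟩
  have e1 : ∑ n ∈ range (M + 1), h n * ee ((n : ℝ) * α) =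
      h 0 + ∑ n ∈ Icc 1 M, h n * ee ((n : ℝ) * α) := by
    have : range (M + 1) = insert 0 (Icc 1 M) := by
      ext n; simp only [mem_range, mem_insert, mem_Icc]; omega
    rw [this, sum_insert (by simp)]
    simp [ee_zero]
  rw [e1]
  refine (norm_add_le _ _).trans ?_
  have hM1 : (1 : ℝ) ≤ M := by exact_mod_cast (by omega : 1 ≤ M)
  have h4 := h1 M (by omega) α
  have h5 := h2 M (by omega)
  have hL : 0 < Real.log M := lt_of_lt_of_le (by positivity) h5
  have h6 : (M : ℝ) / Real.log M ^ 1 ≤ ε / 2 * M := by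
    rw [pow_one, div_le_iff₀ hL]
    have : 2 / ε * (ε / 2) = 1 := by field_simp
    calc (M : ℝ) = M * (2 / ε * (ε / 2)) := by rw [this, mul_one]
      _ ≤ M * (Real.log M * (ε / 2)) := by gcongr
      _ = _ := by ring
  have h7 : (1 : ℝ) ≤ ε / 2 * M := by
    have h8 : 2 / ε ≤ M := h3.trans (by exact_mod_cast (by omega : N3 ≤ M))
    rw [div_le_iff₀ hε] at h8
    linarith
  have := hb 0
  push_cast
  nlinarith

/-- exponential sums along progressions -/
theorem ap_sup {h : ℕ → ℂ} (hsup : SupSmall h) (hb : ∀ n, ‖h n‖ ≤ 1) {q r : ℕ} (hq : 0 < q) (hr : r < q)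
    (ε : ℝ) (hε : 0 < ε) :
    ∃ M0 : ℕ, ∀ M : ℕ, M0 ≤ M → ∀ θ : ℝ, ‖∑ k ∈ range M, h (q * k + r) * ee ((k : ℝ) * θ)‖ ≤ ε * M := by
  have hq0 : (0 : ℝ) < q := by exact_mod_cast hq
  have hqc : (q : ℂ) ≠ 0 := by exact_mod_cast hq0.ne'
  obtain ⟨N0, hN0⟩ := sup_range hsup hb (ε / q) (by positivity)
  refine ⟨N0, fun M hM θ => ?_⟩
  set f : ℕ → ℂ := fun n => if n % q = r then h n * ee ((((n : ℝ) - r) / q) * θ) else 0 with hf
  have e1 : ∑ k ∈ range M, h (q * k + r) * ee ((k : ℝ) * θ) = ∑ n ∈ range (q * M), f n := by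
    rw [block_sum, Finset.sum_eq_single_of_mem r (mem_range.2 hr)]
    · refine Finset.sum_congr rfl fun k _ => ?_
      have h1 : (q * k + r) % q = r := by rw [Nat.mul_add_mod, Nat.mod_eq_of_lt hr]
      rw [hf]
      simp only [h1, if_true]
      congr 3
      push_cast
      field_simp
      ring
    · intro s hs hsr
      refine Finset.sum_eq_zero fun k _ => ?_
      have h1 : (q * k + s) % q = s := by rw [Nat.mul_add_mod, Nat.mod_eq_of_lt (mem_range.1 hs)]
      rw [hf]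
      simp only [h1, if_neg hsr]
  have hind : ∀ n : ℕ, (q : ℂ) * f n =
      ∑ t ∈ range q, ee (-((r : ℝ) * ((t + θ) / q))) * (h n * ee ((n : ℝ) * ((t + θ) / q))) := by
    intro n
    have e2 : ∀ t ∈ range q, ee (-((r : ℝ) * ((t + θ) / q))) * (h n * ee ((n : ℝ) * ((t + θ) / q))) =
        (h n * ee ((((n : ℝ) - r) / q) * θ)) * ee ((t : ℝ) * ((((n : ℤ) - r : ℤ) : ℝ) / q)) := by
      intro t _
      have e3 : ee (-((r : ℝ) * ((t + θ) / q))) * ee ((n : ℝ) * ((t + θ) / q)) =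
          ee ((((n : ℝ) - r) / q) * θ) * ee ((t : ℝ) * ((((n : ℤ) - r : ℤ) : ℝ) / q)) := by
        rw [← ee_add, ← ee_add]
        congr 1
        push_cast
        ring
      linear_combination h n * e3
    rw [sum_congr rfl e2, ← mul_sum, orth q hq]
    by_cases hn : n % q = r
    · rw [hf]
      simp only [hn, if_true]
      rw [if_pos]
      · ring
      · refine ⟨(n / q : ℕ), ?_⟩
        have := Nat.div_add_mod n q
        have h3 : (n : ℤ) = q * (n / q : ℕ) + (n % q : ℕ) := by exact_mod_cast this.symm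
        rw [hn] at h3
        linarith
    · rw [hf]
      simp only [if_neg hn]
      rw [if_neg]
      · ring
      · intro hd
        apply hn
        have h4 : ((n : ℤ) - r) % q = 0 := Int.emod_eq_zero_of_dvd hd
        have h5 : (n : ℤ) % q = (r : ℤ) % q := Int.emod_eq_emod_iff_emod_sub_eq_zero.2 h4
        have h6 : (r : ℤ) % q = r := Int.emod_eq_of_lt (by positivity) (by exact_mod_cast hr)
        rw [h6] at h5
        exact_mod_cast h5
  have hsum : (q : ℂ) * ∑ n ∈ range (q * M), f n =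
      ∑ t ∈ range q, ee (-((r : ℝ) * ((t + θ) / q))) *
        ∑ n ∈ range (q * M), h n * ee ((n : ℝ) * ((t + θ) / q)) := by
    rw [mul_sum]
    simp_rw [hind, mul_sum]
    rw [sum_comm]
  rw [e1]
  have h9 : (q : ℝ) * ‖∑ n ∈ range (q * M), f n‖ ≤ q * (ε * M) := by
    have e5 : (q : ℝ) * ‖∑ n ∈ range (q * M), f n‖ = ‖(q : ℂ) * ∑ n ∈ range (q * M), f n‖ := by
      rw [norm_mul, Complex.norm_natCast]
    rw [e5, hsum]
    refine (norm_sum_le _ _).trans ?_
    have h10 : ∀ t ∈ range q, ‖ee (-((r : ℝ) * ((t + θ) / q))) *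
        ∑ n ∈ range (q * M), h n * ee ((n : ℝ) * ((t + θ) / q))‖ ≤ ε * M := by
      intro t _
      rw [norm_mul, norm_ee, one_mul]
      refine (hN0 (q * M) (hM.trans (Nat.le_mul_of_pos_left M hq)) _).trans (le_of_eq ?_)
      push_cast
      field_simp
    refine (sum_le_sum h10).trans (le_of_eq ?_)
    rw [sum_const, card_range, nsmul_eq_mul]
  exact le_of_mul_le_mul_left h9 hq0

theorem exists_ee {z : ℂ} (hz : ‖z‖ = 1) : ∃ x : ℝ, z = ee x := by
  obtain ⟨θ, hθ⟩ := (Complex.norm_eq_one_iff z).1 hz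
  refine ⟨θ / (2 * Real.pi), ?_⟩
  rw [← hθ, ee]
  congr 1
  have : (Real.pi : ℂ) ≠ 0 := by exact_mod_cast Real.pi_ne_zero
  push_cast
  field_simp

section alg

variable {B : Type*} [CStarAlgebra B]

/-- the norm of a polynomial in a unitary -/
theorem poly_norm {Z : B} (hZ : Z ∈ unitary B) (c : ℕ → ℂ) (H : ℕ) {M : ℝ} (hM : 0 ≤ M)
    (h : ∀ t : ℝ, ee t ∈ spectrum ℂ Z → ‖∑ i ∈ range H, c i * ee ((i : ℝ) * t)‖ ≤ M) :
    ‖∑ i ∈ range H, c i • Z ^ i‖ ≤ M := by
  have hn : IsStarNormal Z := ⟨by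
    rw [Commute, SemiconjBy, Unitary.star_mul_self_of_mem hZ, Unitary.mul_star_self_of_mem hZ]⟩
  have e1 : cfc (fun z : ℂ => ∑ i ∈ range H, c i * z ^ i) Z = ∑ i ∈ range H, c i • Z ^ i := by
    have h1 := cfc_sum (R := ℂ) (p := IsStarNormal) (fun i (z : ℂ) => c i * z ^ i) Z (range H)
      (fun i _ => by fun_prop)
    have h2 : (∑ i ∈ range H, fun z : ℂ => c i * z ^ i) = fun z : ℂ => ∑ i ∈ range H, c i * z ^ i := by
      funext z
      rw [Finset.sum_apply]
    rw [h2] at h1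
    rw [h1]
    refine Finset.sum_congr rfl fun i _ => ?_
    rw [cfc_const_mul (c i) (fun z : ℂ => z ^ i) Z (by fun_prop), cfc_pow_id (R := ℂ) Z i]
  rw [← e1]
  refine norm_cfc_le hM fun z hz => ?_
  have hz1 : ‖z‖ = 1 := by
    have := spectrum.subset_circle_of_unitary hZ hz
    simpa using this
  obtain ⟨t, rfl⟩ := exists_ee hz1
  refine le_trans (le_of_eq ?_) (h t hz)
  congr 1
  exact Finset.sum_congr rfl fun i _ => by rw [ee_pow]

/-- a closed set which meets the circle in a null set -/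
def NullE (E : Set ℂ) : Prop :=
  IsClosed E ∧ volume {t : ℝ | Complex.exp (2 * Real.pi * Complex.I * t) ∈ E} = 0

/-- the frequencies -/
def Frq (E : Set ℂ) : Set UnitAddCircle := {x | (AddCircle.toCircle x : ℂ) ∈ E}

theorem toCircle_ee (t : ℝ) : (AddCircle.toCircle ((t : ℝ) : UnitAddCircle) : ℂ) = ee t := by
  rw [AddCircle.toCircle_apply_mk, Circle.coe_exp, ee]
  congr 1
  push_cast
  ring

theorem frq_closed {E : Set ℂ} (hE : NullE E) : IsClosed (Frq E) := by
  have h1 : Continuous fun x : UnitAddCircle => (AddCircle.toCircle x : ℂ) :=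
    continuous_induced_dom.comp AddCircle.continuous_toCircle
  exact hE.1.preimage h1

theorem frq_null {E : Set ℂ} (hE : NullE E) : volume (Frq E) = 0 := by
  have h1 := (AddCircle.measurePreserving_mk (1 : ℝ) 0).measure_preimage
    (frq_closed hE).measurableSet.nullMeasurableSet
  rw [← h1]
  refine measure_mono_null ?_ (Measure.restrict_apply_eq_zero' (measurableSet_Ioc) |>.2
    (measure_mono_null Set.inter_subset_left hE.2))
  intro t ht
  have : (AddCircle.toCircle ((t : ℝ) : UnitAddCircle) : ℂ) ∈ E := ht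
  rw [toCircle_ee] at this
  exact this

end alg

/-- **windows**: polynomials in unitaries with spectra in a null set -/
theorem null_window {h : ℕ → ℂ} (hh : Mul1 h) (hE : ExpoSmall h) {E : Set ℂ} (hE0 : NullE E)
    (ε : ℝ) (hε : 0 < ε) :
    ∃ H0 : ℕ, ∀ H : ℕ, H0 ≤ H → ∀ N : ℕ, H ≤ N → ∀ (B : Type) [CStarAlgebra B] (Z : ℕ → B),
      (∀ n, Z n ∈ unitary B) → (∀ n, spectrum ℂ (Z n) ⊆ E) →
      ∑ n ∈ range N, ‖∑ i ∈ range H, h (n + i) • Z n ^ i‖ ≤ ε * H * N := by
  have hfr : ∀ t : ℝ, ee t ∈ E → ((t : ℝ) : UnitAddCircle) ∈ Frq E := by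
    intro t ht
    show (AddCircle.toCircle ((t : ℝ) : UnitAddCircle) : ℂ) ∈ E
    rw [toCircle_ee]; exact ht
  rcases (Frq E).eq_empty_or_nonempty with h0 | hne
  · refine ⟨0, fun H _ N _ B _ Z hZ hZE => ?_⟩
    have h1 : ∀ n : ℕ, ‖∑ i ∈ range H, h (n + i) • Z n ^ i‖ ≤ 0 := by
      intro n
      refine poly_norm (hZ n) (fun i => h (n + i)) H le_rfl fun t ht => ?_
      exfalso
      have := hfr t (hZE n ht)
      rw [h0] at this
      exact this
    refine (Finset.sum_nonpos fun n _ => h1 n).trans (by positivity)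
  obtain ⟨δ, hδ, H0, hH0⟩ := Pool.Agent.Run7.h172.Nls.uniformity_nhds hh hE (frq_closed hE0) (frq_null hE0)
    (ε / 2) (by positivity)
  refine ⟨H0, fun H hH N hN B _ Z hZ hZE => ?_⟩
  rcases Nat.eq_zero_or_pos H with hH1 | hH1
  · subst hH1; simp
  have hHp : (0 : ℝ) < H := by exact_mod_cast hH1
  choose a ha1 ha2 using fun r => Pool.Agent.Run7.h172.Dyn.near_max h hh.1 H (Frq E) hne (ε / 2 * H)
    (by positivity) r
  have h1 := hH0 H hH N hN a (fun n => ⟨_, ha1 n, by rw [sub_self, norm_zero]; exact hδ.le⟩)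
  have h2 : ∀ n ∈ range N, ‖∑ i ∈ range H, h (n + i) • Z n ^ i‖ ≤
      ‖∑ i ∈ range H, h (n + i) * ee ((i : ℝ) * a n)‖ + ε / 2 * H := by
    intro n _
    refine poly_norm (hZ n) (fun i => h (n + i)) H (by positivity) fun t ht => ?_
    exact ha2 n t (hfr t (hZE n ht))
  refine (sum_le_sum h2).trans ?_
  rw [sum_add_distrib, sum_const, card_range, nsmul_eq_mul]
  nlinarith

section win

variable {E : Type*} [NormedAddCommGroup E] [NormedSpace ℂ E]

/-- averages over windows -/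
theorem win {y : ℕ → E} {B : ℝ} (hB : 0 ≤ B) (hy : ∀ n, ‖y n‖ ≤ B) (N H : ℕ) :
    H * ‖∑ n ∈ range N, y n‖ ≤ ∑ n ∈ range N, ‖∑ i ∈ range H, y (n + i)‖ + 2 * H ^ 2 * B := by
  have e1 : ∑ i ∈ range H, ∑ n ∈ range N, y (n + i) = ∑ n ∈ range N, ∑ i ∈ range H, y (n + i) :=
    sum_comm
  have e2 : (H : ℂ) • ∑ n ∈ range N, y n = ∑ i ∈ range H, ∑ n ∈ range N, y (n + i) +
      ∑ i ∈ range H, (∑ n ∈ range N, y n - ∑ n ∈ range N, y (n + i)) := by
    rw [sum_sub_distrib, sum_const, card_range, Nat.cast_smul_eq_nsmul]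
    abel
  have e3 : (H : ℝ) * ‖∑ n ∈ range N, y n‖ = ‖(H : ℂ) • ∑ n ∈ range N, y n‖ := by
    rw [norm_smul, Complex.norm_natCast]
  rw [e3, e2]
  refine (norm_add_le _ _).trans (add_le_add ?_ ?_)
  · rw [e1]
    exact norm_sum_le _ _
  · have h1 : ∀ i ∈ range H, ‖∑ n ∈ range N, y n - ∑ n ∈ range N, y (n + i)‖ ≤ 2 * H * B := by
      intro i hi
      have hi' : (i : ℝ) ≤ H := by exact_mod_cast (mem_range.1 hi).le
      have e4 : ∑ n ∈ range (N + i), y n = ∑ n ∈ range N, y n + ∑ x ∈ range i, y (N + x) :=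
        Finset.sum_range_add _ _ _
      have e5 : ∑ n ∈ range (i + N), y n = ∑ n ∈ range i, y n + ∑ x ∈ range N, y (i + x) :=
        Finset.sum_range_add _ _ _
      have e6 : ∑ n ∈ range N, y n - ∑ n ∈ range N, y (n + i) = ∑ n ∈ range i, y n -
          ∑ x ∈ range i, y (N + x) := by
        have e7 : ∀ n ∈ range N, y (n + i) = y (i + n) := fun n _ => by rw [add_comm]
        rw [sum_congr rfl e7, sub_eq_sub_iff_add_eq_add, ← e4, add_comm N i, e5]
      rw [e6]
      have hb : ∀ f : ℕ → E, (∀ n, ‖f n‖ ≤ B) → ‖∑ n ∈ range i, f n‖ ≤ i * B := by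
        intro f hf
        refine (norm_sum_le _ _).trans ((sum_le_sum fun n _ => hf n).trans (le_of_eq ?_))
        rw [sum_const, card_range, nsmul_eq_mul]
      have h1 := hb y hy
      have h2 := hb (fun x => y (N + x)) fun x => hy _
      refine (norm_sub_le _ _).trans ?_
      nlinarith
    refine (norm_sum_le _ _).trans ((sum_le_sum h1).trans (le_of_eq ?_))
    rw [sum_const, card_range, nsmul_eq_mul]
    ring

end win

end Run7.h896.CF
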