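import Pool.Agent.Run7.h896.CF.Core

/-! Averages in one representation. -/

set_option autoImplicit false

open Finset Filter Topology MeasureTheory
open scoped InnerProductSpace

namespace Run7.h896.CF

open Pool.Agent.H807R2.Dav (ee norm_ee ee_add ee_int ee_pow ee_zero)
open Pool.Agent.H373R2.T7 (SupSmall)
open Pool.Agent.W24.Katai (Mul1)
open Pool.Agent.TH823.MRS (ExpoSmall)
open Pool.Agent.TH261.AB (vav vav_norm tendsto_vav_iff vav_of_residues vav_le)

/-- averages of a slowed down sequence -/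
theorem avg_div {g : ℕ → ℝ} (hg : ∀ n, 0 ≤ g n)
    (h : Tendsto (fun N : ℕ => (∑ n ∈ range N, g n) / N) atTop (𝓝 0)) {q : ℕ} (hq : 0 < q) :
    Tendsto (fun N : ℕ => (∑ n ∈ range N, g (n / q)) / N) atTop (𝓝 0) := by
  have hdiv : Tendsto (fun N : ℕ => N / q + 1) atTop atTop :=
    (tendsto_add_atTop_nat 1).comp (Nat.tendsto_div_const_atTop hq.ne')
  have h1 := (h.comp hdiv).const_mul (2 * (q : ℝ))
  rw [mul_zero] at h1
  refine squeeze_zero (fun N => by
    have := Finset.sum_nonneg (fun n (_ : n ∈ range N) => hg (n / q))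
    positivity) (fun N => ?_) h1
  rw [Function.comp_apply]
  rcases Nat.eq_zero_or_pos N with h0 | h0
  · subst h0
    have := Finset.sum_nonneg (fun n (_ : n ∈ range (0 / q + 1)) => hg n)
    simp only [range_zero, sum_empty, zero_div]
    positivity
  have hN : (0 : ℝ) < N := by exact_mod_cast h0
  have e1 : ∑ n ∈ range N, g (n / q) ≤ q * ∑ m ∈ range (N / q + 1), g m := by
    have h2 : ∑ n ∈ range N, g (n / q) ≤ ∑ n ∈ range (q * (N / q + 1)), g (n / q) := by
      refine sum_le_sum_of_subset_of_nonneg (range_subset_range.2 ?_) fun n _ _ => hg _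
      have := Nat.div_add_mod N q
      have := Nat.mod_lt N hq
      rw [Nat.mul_succ]
      omega
    refine h2.trans (le_of_eq ?_)
    rw [Pool.Agent.TH261.AB.block_sum]
    have h3 : ∀ r ∈ range q, ∑ n ∈ range (N / q + 1), g ((q * n + r) / q) =
        ∑ n ∈ range (N / q + 1), g n := by
      intro r hr
      refine sum_congr rfl fun n _ => ?_
      rw [Nat.mul_add_div hq, Nat.div_eq_of_lt (mem_range.1 hr), add_zero]
    rw [sum_congr rfl h3, sum_const, card_range, nsmul_eq_mul]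
  have hMp : (0 : ℝ) < ((N / q + 1 : ℕ) : ℝ) := by positivity
  have hMN : ((N / q + 1 : ℕ) : ℝ) ≤ 2 * N := by
    have h4 : N / q ≤ N := Nat.div_le_self _ _
    exact_mod_cast (by omega : N / q + 1 ≤ 2 * N)
  have hS := Finset.sum_nonneg (fun n (_ : n ∈ range (N / q + 1)) => hg n)
  rw [mul_div_assoc', div_le_div_iff₀ hN hMp]
  calc (∑ n ∈ range N, g (n / q)) * ((N / q + 1 : ℕ) : ℝ) ≤
        (q * ∑ m ∈ range (N / q + 1), g m) * (2 * N) := by gcongr
    _ = _ := by ring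

section rep

variable {K : Type} [NormedAddCommGroup K] [InnerProductSpace ℂ K]

/-- the vectors with null averages -/
noncomputable def GG (h : ℕ → ℂ) (S : ℕ → (K →L[ℂ] K)) : Submodule ℂ K where
  carrier := {ξ | Tendsto (vav fun n => h n • S n ξ) atTop (𝓝 0)}
  add_mem' := by
    intro ξ η hξ hη
    have h := Tendsto.add hξ hη
    rw [add_zero] at h
    refine h.congr fun N => ?_
    simp only [vav, map_add, smul_add, Finset.sum_add_distrib]
  zero_mem' := by
    have : (vav fun n => h n • S n (0 : K)) = fun _ => 0 := by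
      funext N; simp [vav]
    show Tendsto _ _ _
    rw [this]
    exact tendsto_const_nhds
  smul_mem' := by
    intro c ξ hξ
    have h := Tendsto.const_smul hξ c
    rw [smul_zero] at h
    refine h.congr fun N => ?_
    simp only [vav, map_smul, Finset.smul_sum]
    refine Finset.sum_congr rfl fun n _ => ?_
    simp only [smul_smul]
    congr 1
    ring

theorem vav_sub_le {h : ℕ → ℂ} (hb : ∀ n, ‖h n‖ ≤ 1) {S : ℕ → (K →L[ℂ] K)} {B : ℝ} (hB : 0 ≤ B)
    (hS : ∀ n, ‖S n‖ ≤ B) (ξ η : K) (N : ℕ) :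
    ‖vav (fun n => h n • S n ξ) N‖ ≤ B * ‖ξ - η‖ + ‖vav (fun n => h n • S n η) N‖ := by
  have e : vav (fun n => h n • S n ξ) N = vav (fun n => h n • S n (ξ - η)) N +
      vav (fun n => h n • S n η) N := by
    simp only [vav, map_sub, smul_sub, Finset.sum_sub_distrib]
    abel
  rw [e]
  refine (norm_add_le _ _).trans ?_
  gcongr
  refine vav_le (by positivity) (fun n => ?_) N
  rw [norm_smul]
  calc ‖h n‖ * ‖S n (ξ - η)‖ ≤ 1 * (B * ‖ξ - η‖) := by
        gcongr
        · exact hb n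
        · exact ((S n).le_opNorm _).trans (by gcongr; exact hS n)
    _ = _ := one_mul _

theorem GG_closed {h : ℕ → ℂ} (hb : ∀ n, ‖h n‖ ≤ 1) {S : ℕ → (K →L[ℂ] K)} {B : ℝ} (hB : 0 ≤ B)
    (hS : ∀ n, ‖S n‖ ≤ B) : IsClosed (GG h S : Set K) := by
  refine isClosed_of_closure_subset fun ξ hξ => ?_
  show Tendsto _ _ _
  rw [Metric.tendsto_atTop]
  intro ε hε
  obtain ⟨η, hη, hd⟩ := Metric.mem_closure_iff.1 hξ (ε / 2 / (B + 1)) (by positivity)
  have hη' : Tendsto (vav fun n => h n • S n η) atTop (𝓝 0) := hη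
  obtain ⟨N0, hN0⟩ := Metric.tendsto_atTop.1 hη' (ε / 2) (by positivity)
  refine ⟨N0, fun N hN => ?_⟩
  have h1 := hN0 N hN
  have h2 := vav_sub_le hb hB hS ξ η N
  rw [dist_zero_right] at h1 ⊢
  rw [dist_eq_norm, lt_div_iff₀ (by positivity)] at hd
  have h3 : B * ‖ξ - η‖ ≤ ‖ξ - η‖ * (B + 1) := by
    have := norm_nonneg (ξ - η)
    nlinarith
  linarith

variable [CompleteSpace K]

/-- from windows to averages -/
theorem of_windows {h : ℕ → ℂ} (hh : Mul1 h) (hE : ExpoSmall h) {S : ℕ → (K →L[ℂ] K)} {B : ℝ} (hB : 0 ≤ B)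
    (hS : ∀ n, ‖S n‖ ≤ B) (ξ : K) {E : Set ℂ} (hE0 : NullE E) (W : ℕ → (K →L[ℂ] K))
    (hW : ∀ n, W n ∈ unitary (K →L[ℂ] K)) (hWE : ∀ n, spectrum ℂ (W n) ⊆ E)
    (hw : ∀ H : ℕ, ∃ c : ℕ → ℝ, Tendsto (fun N : ℕ => (∑ n ∈ range N, c n) / N) atTop (𝓝 0) ∧
      ∀ n, ‖∑ i ∈ range H, h (n + i) • S (n + i) ξ‖ ≤
        ‖∑ i ∈ range H, h (n + i) • W n ^ i‖ * (B * ‖ξ‖) + c n) :
    Tendsto (vav fun n => h n • S n ξ) atTop (𝓝 0) := by
  rw [Metric.tendsto_atTop]
  intro δ hδ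
  set τ : ℝ := B * ‖ξ‖ with hτ
  have hτ0 : 0 ≤ τ := by positivity
  obtain ⟨H0, hH0⟩ := null_window hh hE hE0 (δ / (8 * (τ + 1))) (by positivity)
  set H : ℕ := H0 + 1 with hH
  have hH1 : (0 : ℝ) < H := by rw [hH]; positivity
  obtain ⟨c, hc, hcw⟩ := hw H
  obtain ⟨N1, hN1⟩ := Metric.tendsto_atTop.1 hc (δ / 8) (by positivity)
  obtain ⟨N2, hN2⟩ := exists_nat_ge (16 * H * (B * ‖ξ‖) / δ)
  refine ⟨N1 + N2 + H, fun N hN => ?_⟩
  rw [dist_zero_right]
  have hNH : H ≤ N := by omega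
  have hNp : (0 : ℝ) < N := by exact_mod_cast (by omega : 0 < N)
  have h1 := win (y := fun n => h n • S n ξ) (B := B * ‖ξ‖) (by positivity) (fun n => by
    rw [norm_smul]
    calc ‖h n‖ * ‖S n ξ‖ ≤ 1 * (B * ‖ξ‖) := by
          gcongr
          · exact hh.1 n
          · exact ((S n).le_opNorm _).trans (by gcongr; exact hS n)
      _ = _ := one_mul _) N H
  have h2 : ∑ n ∈ range N, ‖∑ i ∈ range H, h (n + i) • S (n + i) ξ‖ ≤
      δ / 8 * (H * N) + δ / 8 * N := by
    refine (sum_le_sum fun n _ => hcw n).trans ?_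
    rw [sum_add_distrib]
    refine add_le_add ?_ ?_
    · rw [← sum_mul]
      have h3 := hH0 H (by omega) N hNH (K →L[ℂ] K) W hW hWE
      calc _ ≤ δ / (8 * (τ + 1)) * H * N * τ := by gcongr
        _ = δ / 8 * (H * N) * (τ / (τ + 1)) := by field_simp
        _ ≤ _ := by
          refine mul_le_of_le_one_right (by positivity) ?_
          rw [div_le_one (by positivity)]
          linarith
    · have h5 := hN1 N (by omega)
      rw [Real.dist_eq, sub_zero] at h5
      have h6 := (le_abs_self _).trans h5.le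
      rwa [div_le_iff₀ hNp] at h6
  have h7 : (16 * H * (B * ‖ξ‖)) ≤ N * δ := by
    have : 16 * H * (B * ‖ξ‖) / δ ≤ N := hN2.trans (by exact_mod_cast (by omega : N2 ≤ N))
    rwa [div_le_iff₀ hδ] at this
  rw [vav_norm, div_lt_iff₀ hNp]
  have hH1' : (1 : ℝ) ≤ H := by exact_mod_cast (by omega : 1 ≤ H)
  have h8 : (H : ℝ) * ‖∑ n ∈ range N, h n • S n ξ‖ ≤ H * (δ / 2 * N) := by
    refine (h1.trans (add_le_add h2 le_rfl)).trans ?_
    have h9 : δ / 8 * N ≤ δ / 8 * (H * N) := by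
      have : (N : ℝ) ≤ H * N := le_mul_of_one_le_left hNp.le hH1'
      gcongr
    have h10 : 2 * (H : ℝ) ^ 2 * (B * ‖ξ‖) ≤ δ / 8 * (H * N) := by
      have : 2 * (H : ℝ) ^ 2 * (B * ‖ξ‖) = H / 8 * (16 * H * (B * ‖ξ‖)) := by ring
      rw [this]
      calc (H : ℝ) / 8 * (16 * H * (B * ‖ξ‖)) ≤ H / 8 * (N * δ) := by gcongr
        _ = _ := by ring
    have h11 : 0 ≤ δ * (H * N) := by positivity
    nlinarith
  have h12 := le_of_mul_le_mul_left h8 hH1
  have h13 : 0 < δ * N := by positivity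
  linarith

omit [CompleteSpace K] in
/-- the window with one vector -/
theorem window_bound {h : ℕ → ℂ} (hb : ∀ n, ‖h n‖ ≤ 1) (Z : K →L[ℂ] K)
    (R D : ℕ → (K →L[ℂ] K)) (hR : ∀ i, R i = Z ^ i * R 0 + D i) {B : ℝ} (hB : ‖R 0‖ ≤ B) (n H : ℕ) (η : K) :
    ‖∑ i ∈ range H, h (n + i) • R i η‖ ≤
      ‖∑ i ∈ range H, h (n + i) • Z ^ i‖ * (B * ‖η‖) + ∑ i ∈ range H, ‖D i η‖ := by
  have e1 : ∑ i ∈ range H, h (n + i) • R i η =
      (∑ i ∈ range H, h (n + i) • Z ^ i) (R 0 η) + ∑ i ∈ range H, h (n + i) • D i η := by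
    rw [_root_.sum_apply, ← sum_add_distrib]
    refine sum_congr rfl fun i _ => ?_
    rw [hR i, add_apply, smul_add, smul_apply]
    rfl
  rw [e1]
  refine (norm_add_le _ _).trans (add_le_add ?_ ?_)
  · refine (ContinuousLinearMap.le_opNorm _ _).trans ?_
    gcongr
    exact ((R 0).le_opNorm _).trans (by gcongr)
  · refine (norm_sum_le _ _).trans (sum_le_sum fun i _ => ?_)
    rw [norm_smul]
    exact mul_le_of_le_one_left (norm_nonneg _) (hb _)

end rep

end Run7.h896.CF
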