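import Pool.Agent.Run7.h896.CF.Irr

/-! The theorem in one representation. -/

set_option autoImplicit false

open Finset Filter Topology MeasureTheory
open scoped InnerProductSpace

namespace Run7.h896.CF

open Pool.Agent.H807R2.Dav (ee norm_ee ee_add ee_int ee_pow ee_zero)
open Pool.Agent.H373R2.T7 (SupSmall)
open Pool.Agent.W24.Katai (Mul1)
open Pool.Agent.TH823.MRS (ExpoSmall)
open Pool.Agent.TH261.AB (vav vav_norm tendsto_vav_iff vav_of_residues vav_le)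

variable {K : Type} [NormedAddCommGroup K] [InnerProductSpace ℂ K] [CompleteSpace K]

/-- Cesaro -/
theorem cesaro {c : ℕ → ℝ} (h : Tendsto c atTop (𝓝 0)) :
    Tendsto (fun N : ℕ => (∑ n ∈ range N, c n) / N) atTop (𝓝 0) := by
  have h1 := h.cesaro
  refine h1.congr fun N => ?_
  rw [div_eq_inv_mul]

/-- the first alternative -/
theorem part_null {h : ℕ → ℂ} (hh : Mul1 h) (hE : ExpoSmall h) {S : ℕ → (K →L[ℂ] K)} {B : ℝ} (hB : 0 ≤ B)
    (hS : ∀ n, ‖S n‖ ≤ B) (ξ : K) {E : Set ℂ} (hE0 : NullE E) (Z : ℕ → (K →L[ℂ] K))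
    (hZ : ∀ n, Z n ∈ unitary (K →L[ℂ] K)) (hZE : ∀ n, spectrum ℂ (Z n) ⊆ E)
    (hC : ∀ i, Tendsto (fun n => ‖S (n + i) - Z n ^ i * S n‖) atTop (𝓝 0)) :
    Tendsto (vav fun n => h n • S n ξ) atTop (𝓝 0) := by
  refine of_windows hh hE hB hS ξ hE0 Z hZ hZE (fun H => ?_)
  refine ⟨fun n => ∑ i ∈ range H, ‖(S (n + i) - Z n ^ i * S n) ξ‖, cesaro ?_, fun n =>
    window_bound hh.1 (Z n) (fun i => S (n + i)) (fun i => S (n + i) - Z n ^ i * S n) (fun i => ?_) (hS n) n H ξ⟩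
  · have h1 : ∀ i ∈ range H, Tendsto (fun n => ‖(S (n + i) - Z n ^ i * S n) ξ‖) atTop (𝓝 0) := by
      intro i _
      have h2 := (hC i).mul_const ‖ξ‖
      rw [zero_mul] at h2
      exact squeeze_zero (fun n => norm_nonneg _) (fun n => ContinuousLinearMap.le_opNorm _ ξ) h2
    have := tendsto_finsetSum (range H) h1
    simpa using this
  · show S (n + i) = Z n ^ i * S (n + 0) + (S (n + i) - Z n ^ i * S n)
    rw [add_zero]
    abel

/-- the second alternative, vectors orthogonal to the eigenvectors -/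
theorem part_cpt {h : ℕ → ℂ} (hh : Mul1 h) (hE : ExpoSmall h) {S : ℕ → (K →L[ℂ] K)} {B : ℝ} (hB : 0 ≤ B)
    (hS : ∀ n, ‖S n‖ ≤ B) {q : ℕ} (hq : 0 < q) (V : K ≃ₗᵢ[ℂ] K)
    (hV : ∀ k s : ℕ, ∀ ξ, (V ^ k) (S (q * k + s) ξ) = S s ((V ^ k) ξ))
    (ξ : K) (hξ : ξ ∈ (EE V)ᗮ) {E : Set ℂ} (hE0 : NullE E) (Z : ℕ → (K →L[ℂ] K))
    (hZ : ∀ n, Z n ∈ unitary (K →L[ℂ] K)) (hZE : ∀ n, spectrum ℂ (Z n) ⊆ E)
    (hC : ∀ n i, IsCompactOperator (S (n + i) - Z n ^ i * S n)) :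
    Tendsto (vav fun n => h n • S n ξ) atTop (𝓝 0) := by
  refine of_windows hh hE hB hS ξ hE0 (fun n => Z (n % q)) (fun n => hZ _) (fun n => hZE _) (fun H => ?_)
  refine ⟨fun n => ∑ s ∈ range q, ∑ i ∈ range H, ‖(S (s + i) - Z s ^ i * S s) ((V ^ (n / q)) ξ)‖, ?_,
    fun n => ?_⟩
  · have h1 : ∀ s ∈ range q, ∀ i ∈ range H, Tendsto (fun N : ℕ =>
        (∑ n ∈ range N, ‖(S (s + i) - Z s ^ i * S s) ((V ^ (n / q)) ξ)‖) / N) atTop (𝓝 0) := fun s _ i _ =>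
      avg_div (g := fun n => ‖(S (s + i) - Z s ^ i * S s) ((V ^ n) ξ)‖) (fun n => norm_nonneg _)
        (wm_compact V ξ hξ _ (hC s i)) hq
    have h2 := tendsto_finsetSum (range q) fun s hs => tendsto_finsetSum (range H) (h1 s hs)
    simp only [sum_const_zero] at h2
    refine h2.congr fun N => ?_
    have e : ∑ n ∈ range N, ∑ s ∈ range q, ∑ i ∈ range H,
        ‖(S (s + i) - Z s ^ i * S s) ((V ^ (n / q)) ξ)‖ = ∑ s ∈ range q, ∑ i ∈ range H, ∑ n ∈ range N,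
        ‖(S (s + i) - Z s ^ i * S s) ((V ^ (n / q)) ξ)‖ := by
      rw [sum_comm]
      exact sum_congr rfl fun s _ => sum_comm
    rw [e, sum_div]
    refine sum_congr rfl fun s _ => ?_
    rw [sum_div]
  · obtain ⟨k, hk⟩ : ∃ k, k = n / q := ⟨_, rfl⟩
    obtain ⟨r, hr⟩ : ∃ r, r = n % q := ⟨_, rfl⟩
    have hn : n = q * k + r := by rw [hk, hr]; exact (Nat.div_add_mod n q).symm
    have hrq : r < q := by rw [hr]; exact Nat.mod_lt _ hq
    have e1 : (V ^ k) (∑ i ∈ range H, h (n + i) • S (n + i) ξ) =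
        ∑ i ∈ range H, h (n + i) • S (r + i) ((V ^ k) ξ) := by
      rw [map_sum]
      refine sum_congr rfl fun i _ => ?_
      rw [LinearIsometryEquiv.map_smul]
      congr 1
      rw [← hV]
      congr 2
      rw [hn, add_assoc]
    rw [← LinearIsometryEquiv.norm_map (V ^ k), e1]
    have h1 := window_bound hh.1 (Z r) (fun i => S (r + i)) (fun i => S (r + i) - Z r ^ i * S r) (fun i => by
      show S (r + i) = Z r ^ i * S (r + 0) + (S (r + i) - Z r ^ i * S r)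
      rw [add_zero]
      abel) (hS r) n H ((V ^ k) ξ)
    rw [LinearIsometryEquiv.norm_map] at h1
    show _ ≤ ‖∑ i ∈ range H, h (n + i) • Z (n % q) ^ i‖ * (B * ‖ξ‖) +
      ∑ s ∈ range q, ∑ i ∈ range H, ‖(S (s + i) - Z s ^ i * S s) ((V ^ (n / q)) ξ)‖
    rw [← hk, ← hr]
    refine h1.trans (add_le_add le_rfl ?_)
    exact Finset.single_le_sum (f := fun s => ∑ i ∈ range H, ‖(S (s + i) - Z s ^ i * S s) ((V ^ k) ξ)‖)
      (fun _ _ => Finset.sum_nonneg fun _ _ => norm_nonneg _) (mem_range.2 hrq)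

/-- the second alternative, eigenvectors -/
theorem part_eig {h : ℕ → ℂ} (hh : Mul1 h) (hsup : SupSmall h) {S : ℕ → (K →L[ℂ] K)} {B : ℝ} (hB : 0 ≤ B)
    (hS : ∀ n, ‖S n‖ ≤ B) {q : ℕ} (hq : 0 < q) (V : K ≃ₗᵢ[ℂ] K)
    (hV : ∀ k s : ℕ, ∀ ξ, (V ^ k) (S (q * k + s) ξ) = S s ((V ^ k) ξ)) : EE V ≤ GG h S := by
  rw [EE, Submodule.span_le]
  rintro ξ ⟨w, hw⟩
  show Tendsto (vav fun n => h n • S n ξ) atTop (𝓝 0)
  by_cases hξ : ξ = 0
  · subst hξ
    have : (vav fun n => h n • S n (0 : K)) = fun _ => 0 := by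
      funext N; simp [vav]
    rw [this]
    exact tendsto_const_nhds
  have hw1 : ‖w‖ = 1 := by
    have h1 := LinearIsometryEquiv.norm_map V ξ
    rw [hw, norm_smul] at h1
    have h2 : 0 < ‖ξ‖ := norm_pos_iff.2 hξ
    exact mul_right_cancel₀ h2.ne' (h1.trans (one_mul _).symm)
  obtain ⟨τ, rfl⟩ := exists_ee hw1
  have hpow : ∀ k : ℕ, (V ^ k) ξ = ee ((k : ℝ) * τ) • ξ := by
    intro k
    induction k with
    | zero => simp [ee_zero]
    | succ k ih =>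
      have e1 : (V ^ (k + 1)) ξ = V ((V ^ k) ξ) := by rw [pow_succ']; rfl
      rw [e1, ih, LinearIsometryEquiv.map_smul, hw, smul_smul, ← ee_add]
      congr 2
      push_cast; ring
  refine vav_of_residues (C := B * ‖ξ‖) (by positivity) (fun n => ?_) hq fun r hr => ?_
  · rw [norm_smul]
    calc ‖h n‖ * ‖S n ξ‖ ≤ 1 * (B * ‖ξ‖) := by
          gcongr
          · exact hh.1 n
          · exact ((S n).le_opNorm _).trans (by gcongr; exact hS n)
      _ = _ := one_mul _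
  set R : K →L[ℂ] K := (((Unitary.linearIsometryEquiv (𝕜 := ℂ) (H := K)).symm V⁻¹ :
    unitary (K →L[ℂ] K)) : K →L[ℂ] K) with hR
  have hRu : R ∈ unitary (K →L[ℂ] K) := ((Unitary.linearIsometryEquiv (𝕜 := ℂ) (H := K)).symm V⁻¹).2
  have hRV : ∀ ζ, R (V ζ) = ζ := by
    intro ζ
    show V⁻¹ (V ζ) = ζ
    have : (V⁻¹ * V) ζ = ζ := by rw [inv_mul_cancel]; rfl
    exact this
  have hRVk : ∀ (k : ℕ) ζ, (R ^ k) ((V ^ k) ζ) = ζ := by
    intro k
    induction k with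
    | zero => intro ζ; rfl
    | succ k ih =>
      intro ζ
      have e1 : (V ^ (k + 1)) ζ = V ((V ^ k) ζ) := by rw [pow_succ']; rfl
      have e2 : (R ^ (k + 1)) (V ((V ^ k) ζ)) = (R ^ k) (R (V ((V ^ k) ζ))) := by rw [pow_succ]; rfl
      rw [e1, e2, hRV, ih]
  have hSk : ∀ k : ℕ, S (q * k + r) ξ = (ee ((k : ℝ) * τ) • R ^ k) (S r ξ) := by
    intro k
    rw [← hRVk k (S (q * k + r) ξ), hV, hpow, map_smul, map_smul]
    rfl
  rw [Metric.tendsto_atTop]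
  intro ε hε
  obtain ⟨M0, hM0⟩ := ap_sup hsup hh.1 hq hr (ε / (2 * (‖S r ξ‖ + 1))) (by positivity)
  refine ⟨M0 + 1, fun N hN => ?_⟩
  have hNp : (0 : ℝ) < N := by exact_mod_cast (by omega : 0 < N)
  rw [dist_zero_right, vav_norm, div_lt_iff₀ hNp]
  have e1 : ∑ n ∈ range N, h (q * n + r) • S (q * n + r) ξ =
      (∑ n ∈ range N, (h (q * n + r) * ee ((n : ℝ) * τ)) • R ^ n) (S r ξ) := by
    rw [_root_.sum_apply]
    refine sum_congr rfl fun n _ => ?_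
    rw [hSk, ← smul_apply, smul_smul]
  rw [e1]
  have h1 := poly_norm hRu (fun n => h (q * n + r) * ee ((n : ℝ) * τ)) N
    (M := ε / (2 * (‖S r ξ‖ + 1)) * N) (by positivity) (fun t _ => by
      refine le_trans (le_of_eq ?_) (hM0 N (by omega) (τ + t))
      congr 1
      refine sum_congr rfl fun n _ => ?_
      rw [mul_assoc, ← ee_add, mul_add])
  refine lt_of_le_of_lt (ContinuousLinearMap.le_opNorm _ _) ?_
  calc _ ≤ ε / (2 * (‖S r ξ‖ + 1)) * N * ‖S r ξ‖ := by gcongr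
    _ < ε * N := by
      rw [div_mul_eq_mul_div, div_mul_eq_mul_div, div_lt_iff₀ (by positivity)]
      have h2 : 0 ≤ ‖S r ξ‖ := norm_nonneg _
      have h3 : 0 < ε * N := by positivity
      nlinarith

/-- the second alternative -/
theorem part_cpt' {h : ℕ → ℂ} (hh : Mul1 h) (hE : ExpoSmall h) (hsup : SupSmall h)
    {S : ℕ → (K →L[ℂ] K)} {B : ℝ} (hB : 0 ≤ B)
    (hS : ∀ n, ‖S n‖ ≤ B) {q : ℕ} (hq : 0 < q) (V : K ≃ₗᵢ[ℂ] K)
    (hV : ∀ k s : ℕ, ∀ ξ, (V ^ k) (S (q * k + s) ξ) = S s ((V ^ k) ξ))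
    (ξ : K) {E : Set ℂ} (hE0 : NullE E) (Z : ℕ → (K →L[ℂ] K))
    (hZ : ∀ n, Z n ∈ unitary (K →L[ℂ] K)) (hZE : ∀ n, spectrum ℂ (Z n) ⊆ E)
    (hC : ∀ n i, IsCompactOperator (S (n + i) - Z n ^ i * S n)) :
    Tendsto (vav fun n => h n • S n ξ) atTop (𝓝 0) := by
  set P := (EE V).topologicalClosure with hP
  have hcP : CompleteSpace P := (EE V).isClosed_topologicalClosure.completeSpace_coe
  have hPG : P ≤ GG h S := Submodule.topologicalClosure_minimal _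
    (part_eig hh hsup hB hS hq V hV) (GG_closed hh.1 hB hS)
  obtain ⟨ξ1, h1, ξ2, h2, he⟩ := P.exists_add_mem_mem_orthogonal ξ
  have h2' : ξ2 ∈ (EE V)ᗮ := by rwa [hP, Submodule.orthogonal_closure] at h2
  have h4 : ξ2 ∈ GG h S := part_cpt hh hE hB hS hq V hV ξ2 h2' hE0 Z hZ hZE hC
  have h5 : ξ ∈ GG h S := by
    rw [he]
    exact (GG h S).add_mem (hPG h1) h4
  exact h5

omit [CompleteSpace K] in
/-- covariance -/
theorem cov {A : Type} (α : A → A) (π : A → (K →L[ℂ] K)) (x : A) {q : ℕ} (V : K ≃ₗᵢ[ℂ] K)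
    (hV : ∀ a ξ, V (π (α^[q] a) ξ) = π a (V ξ)) (k : ℕ) :
    ∀ (s : ℕ) (ξ : K), (V ^ k) (π (α^[q * k + s] x) ξ) = π (α^[s] x) ((V ^ k) ξ) := by
  induction k with
  | zero => intro s ζ; simp
  | succ k ih =>
    intro s ζ
    have e1 : (V ^ (k + 1)) (π (α^[q * (k + 1) + s] x) ζ) =
        (V ^ k) (V (π (α^[q * (k + 1) + s] x) ζ)) := by rw [pow_succ]; rfl
    have e2 : α^[q * (k + 1) + s] x = α^[q] (α^[q * k + s] x) := by
      have e4 : q * (k + 1) + s = q + (q * k + s) := by ring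
      rw [e4, Function.iterate_add_apply]
    have e3 : (V ^ (k + 1)) ζ = (V ^ k) (V ζ) := by rw [pow_succ]; rfl
    rw [e1, e2, hV, ih, e3]

end Run7.h896.CF
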