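import Pool.Agent.Run7.h896.CF.Irr2

/-! From irreducible representations to all representations and all functionals. -/

set_option autoImplicit false

open Finset Filter Topology MeasureTheory
open scoped InnerProductSpace

namespace Run7.h896.CF

open Pool.Agent.H373R2.T7 (SupSmall)
open Pool.Agent.W24.Katai (Mul1)
open Pool.Agent.TH823.MRS (ExpoSmall)
open Pool.Agent.TH261.AB (vav vav_norm tendsto_vav_iff vav_of_residues vav_le)
open Run7.h190.H (rain_vec)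

variable {A : Type} [NonUnitalCStarAlgebra A]

/-- irreducible representations -/
def Irred {K : Type} [NormedAddCommGroup K] [InnerProductSpace ℂ K] [CompleteSpace K]
    (π : A →⋆ₙₐ[ℂ] (K →L[ℂ] K)) : Prop :=
  (∃ a, π a ≠ 0) ∧ ∀ T : K →L[ℂ] K, (∀ a, T * π a = π a * T) → ∃ c : ℂ, T = c • 1

theorem rain_rep {a : ℕ → A} {C : ℝ} (ha : ∀ N, ‖a N‖ ≤ C)
    (h : ∀ (K : Type) [NormedAddCommGroup K] [InnerProductSpace ℂ K] [CompleteSpace K]
      (π : A →⋆ₙₐ[ℂ] (K →L[ℂ] K)), Irred π → ∀ ξ : K, Tendsto (fun N => π (a N) ξ) atTop (𝓝 0))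
    (K : Type) [NormedAddCommGroup K] [InnerProductSpace ℂ K] [CompleteSpace K]
    (σ : Unitization ℂ A →⋆ₐ[ℂ] (K →L[ℂ] K)) (ξ : K) :
    Tendsto (fun N => σ (a N : Unitization ℂ A) ξ) atTop (𝓝 0) := by
  refine rain_vec (U := Unitization ℂ A) (a := fun N => (a N : Unitization ℂ A)) (C := C)
    (fun N => by rw [Unitization.norm_inr]; exact ha N) ?_ K σ ξ
  intro K' _ _ _ τ hτ η
  set π : A →⋆ₙₐ[ℂ] (K' →L[ℂ] K') :=
    (τ : Unitization ℂ A →⋆ₙₐ[ℂ] (K' →L[ℂ] K')).comp (Unitization.inrNonUnitalStarAlgHom ℂ A) with hπ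
  have hπa : ∀ x : A, π x = τ (x : Unitization ℂ A) := fun x => rfl
  by_cases h0 : ∃ x, π x ≠ 0
  · refine h K' π ⟨h0, fun T hT => hτ T fun u => ?_⟩ η
    rw [← Unitization.inl_fst_add_inr_snd_eq u, map_add, mul_add, add_mul, ← hπa, hT]
    congr 1
    have e1 : (Unitization.inl u.fst : Unitization ℂ A) = algebraMap ℂ _ u.fst := rfl
    rw [e1, AlgHomClass.commutes τ]
    exact (Algebra.commutes u.fst T).symm
  · push Not at h0
    refine tendsto_const_nhds.congr fun N => ?_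
    rw [← hπa, h0]
    rfl

theorem rain_all {a : ℕ → A} {C : ℝ} (ha : ∀ N, ‖a N‖ ≤ C)
    (h : ∀ (K : Type) [NormedAddCommGroup K] [InnerProductSpace ℂ K] [CompleteSpace K]
      (π : A →⋆ₙₐ[ℂ] (K →L[ℂ] K)), Irred π → ∀ ξ : K, Tendsto (fun N => π (a N) ξ) atTop (𝓝 0))
    (K : Type) [NormedAddCommGroup K] [InnerProductSpace ℂ K] [CompleteSpace K]
    (π : A →⋆ₙₐ[ℂ] (K →L[ℂ] K)) (ξ : K) :
    Tendsto (fun N => π (a N) ξ) atTop (𝓝 0) := by
  refine (rain_rep ha h K (Unitization.starLift π) ξ).congr fun N => ?_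
  rw [← Unitization.starLift_symm_apply_apply, Equiv.symm_apply_apply]

theorem rain_fun {a : ℕ → A} {C : ℝ} (ha : ∀ N, ‖a N‖ ≤ C)
    (h : ∀ (K : Type) [NormedAddCommGroup K] [InnerProductSpace ℂ K] [CompleteSpace K]
      (π : A →⋆ₙₐ[ℂ] (K →L[ℂ] K)), Irred π → ∀ ξ : K, Tendsto (fun N => π (a N) ξ) atTop (𝓝 0))
    (ρ : A →L[ℂ] ℂ) : Tendsto (fun N => ρ (a N)) atTop (𝓝 0) := by
  obtain ⟨K, _, _, _, π, hπ⟩ := H759R2.Kad.prove7_rep H759R2.Kad.prove7_jord
    (H759R2.Kad.prove7_univ H759R2.Kad.prove7_gns) (Unitization ℂ A)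
  let ρ' : Unitization ℂ A →L[ℂ] ℂ :=
    { toFun := fun u => ρ u.snd
      map_add' := fun u v => by rw [Unitization.snd_add, map_add]
      map_smul' := fun c u => by rw [Unitization.snd_smul, map_smul]; rfl
      cont := ρ.continuous.comp
        (continuous_snd.comp (Unitization.uniformEquivProd (𝕜 := ℂ) (A := A)).continuous) }
  obtain ⟨ζ, ω, hρ, -⟩ := hπ ρ'.toLinearMap ‖ρ'‖ (norm_nonneg _) fun a => ρ'.le_opNorm a
  have hρ' : ∀ a, ρ' a = ⟪ζ, π a ω⟫_ℂ := hρ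
  have h2 := (continuous_const.inner continuous_id : Continuous fun y : K =>
    inner ℂ ζ y).tendsto 0
  rw [inner_zero_right] at h2
  refine (h2.comp (rain_rep ha h K π ω)).congr fun N => ?_
  simp only [Function.comp_apply]
  rw [← hρ']
  rfl

/-- the averages of a bounded sequence, from `1` to `N` -/
theorem icc_of_range {E : Type*} [NormedAddCommGroup E] [NormedSpace ℂ E] {y : ℕ → E} {B : ℝ}
    (hy : ∀ n, ‖y n‖ ≤ B) (h : Tendsto (vav y) atTop (𝓝 0)) :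
    Tendsto (fun N : ℕ => (1 / (N : ℂ)) • ∑ n ∈ Icc 1 N, y n) atTop (𝓝 0) := by
  have h1 : Tendsto (fun N : ℕ => (1 / (N : ℂ)) • (y N - y 0)) atTop (𝓝 0) := by
    rw [tendsto_zero_iff_norm_tendsto_zero]
    have h2 : Tendsto (fun N : ℕ => (2 * B) / (N : ℝ)) atTop (𝓝 0) :=
      tendsto_const_div_atTop_nhds_zero_nat _
    refine squeeze_zero (fun N => norm_nonneg _) (fun N => ?_) h2
    rw [norm_smul, norm_div, norm_one, Complex.norm_natCast]
    have h3 : ‖y N - y 0‖ ≤ 2 * B := (norm_sub_le _ _).trans (by linarith [hy N, hy 0])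
    rw [div_mul_eq_mul_div, one_mul]
    gcongr
  have h3 := h.add h1
  rw [add_zero] at h3
  refine h3.congr fun N => ?_
  rw [vav, ← one_div, ← smul_add]
  congr 1
  have e : ∑ n ∈ range (N + 1), y n = y 0 + ∑ n ∈ Icc 1 N, y n := by
    have : range (N + 1) = insert 0 (Icc 1 N) := by
      ext n; simp only [mem_range, mem_insert, mem_Icc]; omega
    rw [this, sum_insert (by simp)]
  rw [sum_range_succ] at e
  have e2 : ∑ n ∈ Icc 1 N, y n = ∑ n ∈ range N, y n + y N - y 0 := by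
    rw [e]; abel
  rw [e2]
  abel

/-- iterates of *-endomorphisms -/
theorem iter_norm (α : A →⋆ₙₐ[ℂ] A) (n : ℕ) (x : A) : ‖(⇑α)^[n] x‖ ≤ ‖x‖ := by
  induction n with
  | zero => exact le_rfl
  | succ n ih =>
    rw [Function.iterate_succ_apply']
    exact (NonUnitalStarAlgHom.norm_apply_le α _).trans ih

/-- it is enough to consider irreducible representations -/
theorem main_of {h : ℕ → ℂ} (hb : ∀ n, ‖h n‖ ≤ 1)
    (α : A →⋆ₙₐ[ℂ] A) (x : A)
    (hx : ∀ (K : Type) [NormedAddCommGroup K] [InnerProductSpace ℂ K] [CompleteSpace K]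
      (π : A →⋆ₙₐ[ℂ] (K →L[ℂ] K)), Irred π → ∀ ξ : K,
        Tendsto (vav fun n => h n • π ((⇑α)^[n] x) ξ) atTop (𝓝 0)) :
    (∀ (K : Type) [NormedAddCommGroup K] [InnerProductSpace ℂ K] [CompleteSpace K]
      (π : A →⋆ₙₐ[ℂ] (K →L[ℂ] K)) (ξ : K),
      Tendsto (fun N : ℕ => (1 / (N : ℂ)) • ∑ n ∈ Icc 1 N, h n • π ((⇑α)^[n] x) ξ) atTop (𝓝 0)) ∧
    ∀ ρ : A →L[ℂ] ℂ,
      Tendsto (fun N : ℕ => (1 / (N : ℂ)) * ∑ n ∈ Icc 1 N, h n * ρ ((⇑α)^[n] x)) atTop (𝓝 0) := by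
  set a : ℕ → A := vav fun n => h n • (⇑α)^[n] x with ha
  have hn : ∀ n, ‖h n • (⇑α)^[n] x‖ ≤ ‖x‖ := by
    intro n
    rw [norm_smul]
    calc ‖h n‖ * ‖(⇑α)^[n] x‖ ≤ 1 * ‖x‖ := by
          gcongr
          · exact hb n
          · exact iter_norm α n x
      _ = _ := one_mul _
  have hab : ∀ N, ‖a N‖ ≤ ‖x‖ := fun N => vav_le (norm_nonneg _) hn N
  have hrep : ∀ (K : Type) [NormedAddCommGroup K] [InnerProductSpace ℂ K] [CompleteSpace K]
      (π : A →⋆ₙₐ[ℂ] (K →L[ℂ] K)) (ξ : K) (N : ℕ),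
      π (a N) ξ = vav (fun n => h n • π ((⇑α)^[n] x) ξ) N := by
    intro K _ _ _ π ξ N
    rw [ha, vav, vav, map_smul, map_sum, smul_apply, _root_.sum_apply]
    congr 1
    exact Finset.sum_congr rfl fun n _ => by rw [map_smul]; rfl
  have hirr : ∀ (K : Type) [NormedAddCommGroup K] [InnerProductSpace ℂ K] [CompleteSpace K]
      (π : A →⋆ₙₐ[ℂ] (K →L[ℂ] K)), Irred π → ∀ ξ : K, Tendsto (fun N => π (a N) ξ) atTop (𝓝 0) := by
    intro K _ _ _ π hπ ξ
    exact (hx K π hπ ξ).congr fun N => (hrep K π ξ N).symm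
  constructor
  · intro K _ _ _ π ξ
    have h1 := (rain_all hab hirr K π ξ).congr fun N => hrep K π ξ N
    refine icc_of_range (B := ‖x‖ * ‖ξ‖) (fun n => ?_) h1
    rw [norm_smul]
    calc ‖h n‖ * ‖π ((⇑α)^[n] x) ξ‖ ≤ 1 * (‖x‖ * ‖ξ‖) := by
          gcongr
          · exact hb n
          · refine ((π _).le_opNorm _).trans ?_
            gcongr
            exact (NonUnitalStarAlgHom.norm_apply_le π _).trans (iter_norm α n x)
      _ = _ := one_mul _
  · intro ρ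
    have h1 := (rain_fun hab hirr ρ).congr fun N => by
      show ρ (a N) = vav (fun n => h n • ρ ((⇑α)^[n] x)) N
      rw [ha, vav, vav, map_smul, map_sum]
      congr 1
      exact Finset.sum_congr rfl fun n _ => by rw [map_smul]
    have h2 := icc_of_range (B := ‖ρ‖ * ‖x‖) (fun n => by
      rw [norm_smul]
      calc ‖h n‖ * ‖ρ ((⇑α)^[n] x)‖ ≤ 1 * (‖ρ‖ * ‖x‖) := by
            gcongr
            · exact hb n
            · exact (ρ.le_opNorm _).trans (by gcongr; exact iter_norm α n x)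
        _ = _ := one_mul _) h1
    exact h2

end Run7.h896.CF
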