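import Pool.Agent.Run7.h896.CF.Main

/-! Closed linear spans. -/

set_option autoImplicit false

open Finset Filter Topology MeasureTheory
open scoped InnerProductSpace

namespace Run7.h896.CF

open Pool.Agent.H373R2.T7 (SupSmall)
open Pool.Agent.W24.Katai (Mul1)
open Pool.Agent.TH823.MRS (ExpoSmall)
open Pool.Agent.TH261.AB (vav vav_norm tendsto_vav_iff vav_of_residues vav_le)

section one

variable {K : Type} [NormedAddCommGroup K] [InnerProductSpace ℂ K] [CompleteSpace K]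

/-- sums over the powers of one unitary -/
theorem unitary_tendsto {h : ℕ → ℂ} (hb : ∀ n, ‖h n‖ ≤ 1) (hsup : SupSmall h) {Z : K →L[ℂ] K}
    (hZ : Z ∈ unitary (K →L[ℂ] K)) (η : K) :
    Tendsto (vav fun n => h n • (Z ^ n) η) atTop (𝓝 0) := by
  rw [Metric.tendsto_atTop]
  intro ε hε
  obtain ⟨M0, hM0⟩ := sup_range hsup hb (ε / (2 * (‖η‖ + 1))) (by positivity)
  refine ⟨M0 + 1, fun N hN => ?_⟩
  have hNp : (0 : ℝ) < N := by exact_mod_cast (by omega : 0 < N)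
  rw [dist_zero_right, vav_norm, div_lt_iff₀ hNp]
  have e1 : ∑ n ∈ range N, h n • (Z ^ n) η = (∑ n ∈ range N, h n • Z ^ n) η := by
    rw [_root_.sum_apply]
    exact sum_congr rfl fun n _ => rfl
  rw [e1]
  have h1 := poly_norm hZ h N (M := ε / (2 * (‖η‖ + 1)) * N) (by positivity)
    (fun t _ => hM0 N (by omega) t)
  refine lt_of_le_of_lt (ContinuousLinearMap.le_opNorm _ _) ?_
  calc _ ≤ ε / (2 * (‖η‖ + 1)) * N * ‖η‖ := by gcongr
    _ < ε * N := by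
      rw [div_mul_eq_mul_div, div_mul_eq_mul_div, div_lt_iff₀ (by positivity)]
      have h2 : 0 ≤ ‖η‖ := norm_nonneg _
      have h3 : 0 < ε * N := by positivity
      nlinarith

/-- the first alternative -/
theorem null_tendsto {h : ℕ → ℂ} (hb : ∀ n, ‖h n‖ ≤ 1) (hsup : SupSmall h) {S : ℕ → (K →L[ℂ] K)}
    {Z T : K →L[ℂ] K} (hZ : Z ∈ unitary (K →L[ℂ] K)) {C : ℕ → (K →L[ℂ] K)}
    (hS : ∀ n, S n = Z ^ n * T + C n) (hC : Tendsto (fun n => ‖C n‖) atTop (𝓝 0)) (ξ : K) :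
    Tendsto (vav fun n => h n • S n ξ) atTop (𝓝 0) := by
  have h1 := unitary_tendsto hb hsup hZ (T ξ)
  have h2 : Tendsto (vav fun n => h n • C n ξ) atTop (𝓝 0) := by
    rw [tendsto_zero_iff_norm_tendsto_zero]
    have h3 : Tendsto (fun n => ‖C n‖ * ‖ξ‖) atTop (𝓝 0) := by
      have := hC.mul_const ‖ξ‖
      rwa [zero_mul] at this
    refine squeeze_zero (fun N => norm_nonneg _) (fun N => ?_) (cesaro h3)
    rw [vav_norm]
    gcongr
    refine (norm_sum_le _ _).trans (sum_le_sum fun n _ => ?_)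
    rw [norm_smul]
    exact (mul_le_of_le_one_left (norm_nonneg _) (hb n)).trans ((C n).le_opNorm ξ)
  have h3 := h1.add h2
  rw [add_zero] at h3
  refine h3.congr fun N => ?_
  simp only [vav]
  rw [← smul_add, ← sum_add_distrib]
  congr 1
  refine sum_congr rfl fun n _ => ?_
  rw [← smul_add, hS]
  rfl

end one

variable {A : Type} [NonUnitalCStarAlgebra A]

/-- the elementary elements -/
def Elem (α : A →⋆ₙₐ[ℂ] A) {K : Type} [NormedAddCommGroup K] [InnerProductSpace ℂ K] [CompleteSpace K]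
    (π : A →⋆ₙₐ[ℂ] (K →L[ℂ] K)) (y : A) : Prop :=
  (∃ Z T : K →L[ℂ] K, Z ∈ unitary (K →L[ℂ] K) ∧
    Tendsto (fun n : ℕ => ‖π ((⇑α)^[n] y) - Z ^ n * T‖) atTop (𝓝 0)) ∨
  ∃ (E : Set ℂ) (Z : ℕ → (K →L[ℂ] K)), NullE E ∧
    (∀ n, Z n ∈ unitary (K →L[ℂ] K) ∧ spectrum ℂ (Z n) ⊆ E) ∧
    ((∀ i : ℕ, Tendsto (fun n : ℕ => ‖π ((⇑α)^[n + i] y) - Z n ^ i * π ((⇑α)^[n] y)‖) atTop (𝓝 0)) ∨
      ((∀ n i : ℕ, IsCompactOperator (π ((⇑α)^[n + i] y) - Z n ^ i * π ((⇑α)^[n] y))) ∧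
        ∃ (q : ℕ) (V : K ≃ₗᵢ[ℂ] K), 0 < q ∧ ∀ a ξ, V (π ((⇑α)^[q] a) ξ) = π a (V ξ)))

section two

variable {K : Type} [NormedAddCommGroup K] [InnerProductSpace ℂ K] [CompleteSpace K]

theorem elem_tendsto {h : ℕ → ℂ} (hh : Mul1 h) (hE : ExpoSmall h) (hsup : SupSmall h)
    (α : A →⋆ₙₐ[ℂ] A) (π : A →⋆ₙₐ[ℂ] (K →L[ℂ] K)) {y : A} (hy : Elem α π y) (ξ : K) :
    Tendsto (vav fun n => h n • π ((⇑α)^[n] y) ξ) atTop (𝓝 0) := by
  have hS : ∀ n, ‖π ((⇑α)^[n] y)‖ ≤ ‖y‖ := fun n =>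
    (NonUnitalStarAlgHom.norm_apply_le π _).trans (iter_norm α n y)
  rcases hy with ⟨Z, T, hZ, hC⟩ | ⟨E, Z, hE0, hZ, hC | ⟨hC, q, V, hq, hV⟩⟩
  · exact null_tendsto (S := fun n => π ((⇑α)^[n] y)) hh.1 hsup hZ
      (C := fun n => π ((⇑α)^[n] y) - Z ^ n * T) (fun n => by abel) hC ξ
  · exact part_null (S := fun n => π ((⇑α)^[n] y)) hh hE (norm_nonneg y) hS ξ hE0 Z (fun n => (hZ n).1)
      (fun n => (hZ n).2) hC
  · exact part_cpt' (S := fun n => π ((⇑α)^[n] y)) hh hE hsup (norm_nonneg y) hS hq V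
      (cov (⇑α) (⇑π) y V hV) ξ hE0 Z (fun n => (hZ n).1) (fun n => (hZ n).2) hC

theorem iter_add (α : A →⋆ₙₐ[ℂ] A) (n : ℕ) (x y : A) : (⇑α)^[n] (x + y) = (⇑α)^[n] x + (⇑α)^[n] y := by
  induction n with
  | zero => rfl
  | succ n ih => rw [Function.iterate_succ_apply', ih, map_add, Function.iterate_succ_apply' (⇑α) n x,
      Function.iterate_succ_apply' (⇑α) n y]

theorem iter_smul (α : A →⋆ₙₐ[ℂ] A) (n : ℕ) (c : ℂ) (x : A) : (⇑α)^[n] (c • x) = c • (⇑α)^[n] x := by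
  induction n with
  | zero => rfl
  | succ n ih => rw [Function.iterate_succ_apply', ih, map_smul, Function.iterate_succ_apply' (⇑α) n x]

theorem span_tendsto {h : ℕ → ℂ} (hb : ∀ n, ‖h n‖ ≤ 1)
    (α : A →⋆ₙₐ[ℂ] A) (π : A →⋆ₙₐ[ℂ] (K →L[ℂ] K)) (S : Set A)
    (hS : ∀ y ∈ S, ∀ ξ, Tendsto (vav fun n => h n • π ((⇑α)^[n] y) ξ) atTop (𝓝 0))
    {x : A} (hx : x ∈ closure (Submodule.span ℂ S : Set A)) (ξ : K) :
    Tendsto (vav fun n => h n • π ((⇑α)^[n] x) ξ) atTop (𝓝 0) := by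
  have hspan : ∀ y ∈ Submodule.span ℂ S, Tendsto (vav fun n => h n • π ((⇑α)^[n] y) ξ) atTop (𝓝 0) := by
    intro y hy
    induction hy using Submodule.span_induction with
    | mem y hy => exact hS y hy ξ
    | zero =>
      have h0 : ∀ n : ℕ, (⇑α)^[n] (0 : A) = 0 := fun n => by
        have := iter_smul α n 0 0
        rwa [zero_smul, zero_smul] at this
      have : (vav fun n => h n • π ((⇑α)^[n] (0 : A)) ξ) = fun _ => 0 := by
        funext N
        simp [vav, h0]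
      rw [this]
      exact tendsto_const_nhds
    | add y z _ _ h1 h2 =>
      have h3 := h1.add h2
      rw [add_zero] at h3
      refine h3.congr fun N => ?_
      simp only [vav]
      rw [← smul_add, ← sum_add_distrib]
      congr 1
      refine sum_congr rfl fun n _ => ?_
      rw [iter_add, map_add, add_apply, smul_add]
    | smul c y _ h1 =>
      have h3 := h1.const_smul c
      rw [smul_zero] at h3
      refine h3.congr fun N => ?_
      simp only [vav]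
      rw [smul_comm, smul_sum]
      congr 1
      refine sum_congr rfl fun n _ => ?_
      rw [iter_smul, map_smul, smul_apply, smul_comm]
  rw [Metric.tendsto_atTop]
  intro ε hε
  obtain ⟨y, hy, hd⟩ := Metric.mem_closure_iff.1 hx (ε / 2 / (‖ξ‖ + 1)) (by positivity)
  obtain ⟨N0, hN0⟩ := Metric.tendsto_atTop.1 (hspan y hy) (ε / 2) (by positivity)
  refine ⟨N0, fun N hN => ?_⟩
  have h1 := hN0 N hN
  rw [dist_zero_right] at h1 ⊢
  rw [dist_eq_norm, lt_div_iff₀ (by positivity)] at hd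
  have e : vav (fun n => h n • π ((⇑α)^[n] x) ξ) N = vav (fun n => h n • π ((⇑α)^[n] (x - y)) ξ) N +
      vav (fun n => h n • π ((⇑α)^[n] y) ξ) N := by
    simp only [vav]
    rw [← smul_add, ← sum_add_distrib]
    congr 1
    refine sum_congr rfl fun n _ => ?_
    rw [← smul_add, ← add_apply, ← map_add, ← iter_add, sub_add_cancel]
  rw [e]
  refine lt_of_le_of_lt (norm_add_le _ _) ?_
  have h2 : ‖vav (fun n => h n • π ((⇑α)^[n] (x - y)) ξ) N‖ ≤ ‖x - y‖ * ‖ξ‖ := by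
    refine vav_le (by positivity) (fun n => ?_) N
    rw [norm_smul]
    refine (mul_le_of_le_one_left (norm_nonneg _) (hb n)).trans ?_
    refine ((π _).le_opNorm _).trans ?_
    gcongr
    exact (NonUnitalStarAlgHom.norm_apply_le π _).trans (iter_norm α n _)
  have h3 := norm_nonneg (x - y)
  nlinarith

end two

/-- the main theorem -/
theorem main2 {h : ℕ → ℂ} (hh : Mul1 h) (hE : ExpoSmall h) (hsup : SupSmall h)
    (α : A →⋆ₙₐ[ℂ] A) (x : A)
    (hx : ∀ (K : Type) [NormedAddCommGroup K] [InnerProductSpace ℂ K] [CompleteSpace K]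
      (π : A →⋆ₙₐ[ℂ] (K →L[ℂ] K)), Irred π → x ∈ closure (Submodule.span ℂ {y | Elem α π y} : Set A)) :
    (∀ (K : Type) [NormedAddCommGroup K] [InnerProductSpace ℂ K] [CompleteSpace K]
      (π : A →⋆ₙₐ[ℂ] (K →L[ℂ] K)) (ξ : K),
      Tendsto (fun N : ℕ => (1 / (N : ℂ)) • ∑ n ∈ Icc 1 N, h n • π ((⇑α)^[n] x) ξ) atTop (𝓝 0)) ∧
    ∀ ρ : A →L[ℂ] ℂ,
      Tendsto (fun N : ℕ => (1 / (N : ℂ)) * ∑ n ∈ Icc 1 N, h n * ρ ((⇑α)^[n] x)) atTop (𝓝 0) :=
  main_of hh.1 α x fun K _ _ _ π hπ ξ =>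
    span_tendsto hh.1 α π _ (fun _ hy ξ => elem_tendsto hh hE hsup α π hy ξ) (hx K π hπ) ξ

end Run7.h896.CF
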