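import Pool.Agent.Run7.h190.Erg

/-! Weak mixing: vectors orthogonal to the eigenvectors of a unitary, and compact operators. -/

set_option autoImplicit false

open Finset Filter Topology
open scoped InnerProductSpace

namespace Run7.h896.CF

open Run7.h190.H Pool.Agent.TH261.AB

section cs

/-- Cauchy-Schwarz for averages -/
theorem avg_of_sq {a : ℕ → ℝ} (ha : ∀ n, 0 ≤ a n)
    (h : Tendsto (fun N : ℕ => (∑ n ∈ range N, a n ^ 2) / N) atTop (𝓝 0)) :
    Tendsto (fun N : ℕ => (∑ n ∈ range N, a n) / N) atTop (𝓝 0) := by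
  have h1 := h.sqrt
  rw [Real.sqrt_zero] at h1
  refine squeeze_zero (fun N => by
    have := Finset.sum_nonneg (fun n (_ : n ∈ range N) => ha n)
    positivity) (fun N => ?_) h1
  apply Real.le_sqrt_of_sq_le
  rcases Nat.eq_zero_or_pos N with h0 | h0
  · subst h0; simp
  have hN : (0 : ℝ) < N := by exact_mod_cast h0
  have h2 := sq_sum_le_card_mul_sum_sq (s := range N) (f := a)
  rw [card_range] at h2
  rw [div_pow, div_le_div_iff₀ (by positivity) hN]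
  nlinarith

end cs

variable {K : Type} [NormedAddCommGroup K] [InnerProductSpace ℂ K]

/-- the span of the eigenvectors -/
def EE (V : K ≃ₗᵢ[ℂ] K) : Submodule ℂ K := Submodule.span ℂ {ξ | ∃ w : ℂ, V ξ = w • ξ}

/-- the representation of the integers -/
noncomputable def zr (V : K ≃ₗᵢ[ℂ] K) : Multiplicative ℤ →* (K ≃ₗᵢ[ℂ] K) := zpowersHom _ V

theorem zr_apply (V : K ≃ₗᵢ[ℂ] K) (g : Multiplicative ℤ) : zr V g = V ^ (Multiplicative.toAdd g) := rfl

theorem EE_inv (V : K ≃ₗᵢ[ℂ] K) : Inv (zr V) (EE V) := by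
  intro g w hw
  have h1 : EE V ≤ (EE V).comap (zr V g).toLinearEquiv.toLinearMap := by
    rw [EE, Submodule.span_le]
    rintro ξ ⟨w, hw⟩
    refine Submodule.subset_span ⟨w, ?_⟩
    show V (zr V g ξ) = w • zr V g ξ
    have h2 : V * zr V g = zr V g * V := by
      rw [zr_apply]
      exact ((Commute.refl V).zpow_right _).eq
    have h3 : V (zr V g ξ) = zr V g (V ξ) := DFunLike.congr_fun h2 ξ
    rw [h3, hw, LinearIsometryEquiv.map_smul]
  exact h1 hw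

theorem noFD (V : K ≃ₗᵢ[ℂ] K) : NoFD (sub (zr V) (EE V)ᗮ (EE_inv V).orth) := by
  intro W hf hW
  by_contra h0
  have hn : Nontrivial W := Submodule.nontrivial_iff_ne_bot.2 h0
  set π := sub (zr V) (EE V)ᗮ (EE_inv V).orth with hπ
  let T : W →ₗ[ℂ] W := (π (Multiplicative.ofAdd 1)).toLinearEquiv.toLinearMap.restrict
    (fun w hw => hW _ w hw)
  obtain ⟨c, hc⟩ := Module.End.exists_eigenvalue T
  obtain ⟨w, hw⟩ := hc.exists_hasEigenvector
  have h1 : T w = c • w := hw.apply_eq_smul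
  have h2 : ((w : (EE V)ᗮ) : K) ∈ EE V := by
    refine Submodule.subset_span ⟨c, ?_⟩
    have h3 := congrArg (fun z : W => ((z : (EE V)ᗮ) : K)) h1
    have h4 : (zr V (Multiplicative.ofAdd 1)) ((w : (EE V)ᗮ) : K) = c • ((w : (EE V)ᗮ) : K) := h3
    rw [zr_apply] at h4
    simpa using h4
  have h3 := (Submodule.mem_orthogonal _ _).1 (w : (EE V)ᗮ).2 _ h2
  refine hw.2 ?_
  exact Subtype.ext (Subtype.ext (inner_self_eq_zero.1 h3))

/-- weak mixing -/
theorem wm_sq [CompleteSpace K] (V : K ≃ₗᵢ[ℂ] K) (ξ : K) (hξ : ξ ∈ (EE V)ᗮ) (f : K) :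
    Tendsto (fun N : ℕ => (∑ n ∈ range N, ‖⟪f, (V ^ n) ξ⟫_ℂ‖ ^ 2) / N) atTop (𝓝 0) := by
  set π := sub (zr V) (EE V)ᗮ (EE_inv V).orth with hπ
  obtain ⟨L, _, _, _, ρ, v, hv, hρ, hd⟩ := exists_sq π
  have hnf := nf_of_noFD (noFD V) hv hρ hd
  set R : L →L[ℂ] L := ((ρ (Multiplicative.ofAdd 1)).toContinuousLinearEquiv : L →L[ℂ] L) with hR
  have hR1 : ‖R‖ ≤ 1 := ContinuousLinearMap.opNorm_le_bound _ zero_le_one fun ζ => by
    rw [one_mul]
    exact (LinearIsometryEquiv.norm_map _ ζ).le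
  have hfix : ∀ η, R η = (1 : ℂ) • η → η = 0 := by
    intro η hη
    rw [one_smul] at hη
    refine hnf ⊤ inferInstance η fun x _ => ?_
    have h1 : ∀ k : ℕ, ρ (Multiplicative.ofAdd (k : ℤ)) η = η := by
      intro k
      induction k with
      | zero =>
        have : (Multiplicative.ofAdd ((0 : ℕ) : ℤ)) = 1 := rfl
        rw [this, map_one]; rfl
      | succ k ih =>
        have : (Multiplicative.ofAdd ((k + 1 : ℕ) : ℤ)) =
            Multiplicative.ofAdd (k : ℤ) * Multiplicative.ofAdd 1 := by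
          rw [← ofAdd_add]; rfl
        rw [this, rep_mul]
        have h2 : ρ (Multiplicative.ofAdd 1) η = η := hη
        rw [h2, ih]
    rcases Int.eq_nat_or_neg (Multiplicative.toAdd x) with ⟨k, hk | hk⟩
    · have : x = Multiplicative.ofAdd (k : ℤ) := by rw [← hk]; rfl
      rw [this, h1]
    · have : x = (Multiplicative.ofAdd (k : ℤ))⁻¹ := by rw [← ofAdd_neg, ← hk]; rfl
      rw [this]
      conv_lhs => rw [← h1 k]
      rw [rep_inv]
  have hmean := mean_one R hR1 1 (by simp) (v ⟨ξ, hξ⟩) (fun η hη => by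
    rw [hfix η hη, inner_zero_left])
  -- the projection of `f`
  have hpow : ∀ n : ℕ, (R ^ n) (v ⟨ξ, hξ⟩) = v (π (Multiplicative.ofAdd (n : ℤ)) ⟨ξ, hξ⟩) := by
    intro n
    induction n with
    | zero =>
      have : (Multiplicative.ofAdd ((0 : ℕ) : ℤ)) = 1 := rfl
      rw [this, map_one, pow_zero]; rfl
    | succ k ih =>
      have : (Multiplicative.ofAdd ((k + 1 : ℕ) : ℤ)) =
          Multiplicative.ofAdd 1 * Multiplicative.ofAdd (k : ℤ) := by
        rw [mul_comm, ← ofAdd_add]; rfl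
      rw [this, rep_mul, ← hρ, ← ih, pow_succ']
      rfl
  have hcoe : ∀ n : ℕ, ((π (Multiplicative.ofAdd (n : ℤ)) ⟨ξ, hξ⟩ : (EE V)ᗮ) : K) = (V ^ n) ξ := by
    intro n
    rw [hπ, sub_coe, zr_apply]
    simp
  have hf : ∀ n : ℕ, ⟪f, (V ^ n) ξ⟫_ℂ =
      ⟪(EE V)ᗮ.orthogonalProjectionOnto f, π (Multiplicative.ofAdd (n : ℤ)) ⟨ξ, hξ⟩⟫_ℂ := by
    intro n
    rw [← hcoe]
    have h1 := Submodule.inner_orthogonalProjectionOnto_eq_of_mem_right
      (π (Multiplicative.ofAdd (n : ℤ)) ⟨ξ, hξ⟩) f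
    exact h1.symm
  set g := (EE V)ᗮ.orthogonalProjectionOnto f with hg
  have h1 : Tendsto (fun N : ℕ => ‖v g‖ * ‖((N : ℂ)⁻¹ • ∑ n ∈ range N, (star (1 : ℂ)) ^ n • R ^ n) (v ⟨ξ, hξ⟩)‖)
      atTop (𝓝 0) := by
    have := (tendsto_zero_iff_norm_tendsto_zero.1 hmean).const_mul ‖v g‖
    rwa [mul_zero] at this
  refine squeeze_zero (fun N => by positivity) (fun N => ?_) h1
  refine le_trans (le_of_eq ?_) (norm_inner_le_norm (𝕜 := ℂ) _ _)
  have e1 : ((N : ℂ)⁻¹ • ∑ n ∈ range N, (star (1 : ℂ)) ^ n • R ^ n) (v ⟨ξ, hξ⟩) =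
      (N : ℂ)⁻¹ • ∑ n ∈ range N, v (π (Multiplicative.ofAdd (n : ℤ)) ⟨ξ, hξ⟩) := by
    rw [smul_apply, _root_.sum_apply]
    congr 1
    refine Finset.sum_congr rfl fun n _ => ?_
    rw [star_one, one_pow, one_smul, hpow]
  rw [e1, inner_smul_right, inner_sum]
  have e2 : ∀ n : ℕ, ⟪v g, v (π (Multiplicative.ofAdd (n : ℤ)) ⟨ξ, hξ⟩)⟫_ℂ =
      ((‖⟪f, (V ^ n) ξ⟫_ℂ‖ ^ 2 : ℝ) : ℂ) := by
    intro n
    rw [hv, hf, ← inner_conj_symm (π (Multiplicative.ofAdd (n : ℤ)) ⟨ξ, hξ⟩) g, Complex.mul_conj,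
      Complex.normSq_eq_norm_sq]
  simp_rw [e2]
  rw [← Complex.ofReal_sum, norm_mul, norm_inv, Complex.norm_natCast, Complex.norm_real,
    Real.norm_of_nonneg (Finset.sum_nonneg fun n _ => by positivity)]
  ring

/-- compact operators along weakly mixing orbits -/
theorem wm_compact [CompleteSpace K] (V : K ≃ₗᵢ[ℂ] K) (ξ : K) (hξ : ξ ∈ (EE V)ᗮ) (C : K →L[ℂ] K)
    (hC : IsCompactOperator C) :
    Tendsto (fun N : ℕ => (∑ n ∈ range N, ‖C ((V ^ n) ξ)‖) / N) atTop (𝓝 0) := by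
  apply avg_of_sq (fun n => norm_nonneg _)
  have hcpt : IsCompact (closure (C '' Metric.closedBall 0 ‖ξ‖)) :=
    hC.isCompact_closure_image_closedBall _
  have htb := hcpt.totallyBounded
  rw [Metric.tendsto_atTop]
  intro ε hε
  set M := ‖C‖ * ‖ξ‖ with hM
  obtain ⟨t, htf, ht⟩ := Metric.totallyBounded_iff.1 htb (ε / 2 / (M + 1)) (by positivity)
  have hmem : ∀ n : ℕ, C ((V ^ n) ξ) ∈ closure (C '' Metric.closedBall 0 ‖ξ‖) := by
    intro n
    refine subset_closure ⟨(V ^ n) ξ, ?_, rfl⟩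
    rw [mem_closedBall_zero_iff, LinearIsometryEquiv.norm_map]
  have hnorm : ∀ n : ℕ, ‖C ((V ^ n) ξ)‖ ≤ M := by
    intro n
    refine (C.le_opNorm _).trans (le_of_eq ?_)
    rw [LinearIsometryEquiv.norm_map]
  have hpt : ∀ n : ℕ, ‖C ((V ^ n) ξ)‖ ^ 2 ≤
      ∑ y ∈ htf.toFinset, ‖⟪ContinuousLinearMap.adjoint C y, (V ^ n) ξ⟫_ℂ‖ + ε / 2 / (M + 1) * M := by
    intro n
    obtain ⟨y, hy, hyd⟩ := Set.mem_iUnion₂.1 (ht (hmem n))
    rw [Metric.mem_ball, dist_eq_norm] at hyd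
    set z := C ((V ^ n) ξ) with hz
    have h1 : ‖z‖ ^ 2 = ‖⟪y, z⟫_ℂ + ⟪z - y, z⟫_ℂ‖ := by
      rw [← inner_add_left, add_sub_cancel, inner_self_eq_norm_sq_to_K]
      have : ‖((‖z‖ : ℝ) : ℂ) ^ 2‖ = ‖z‖ ^ 2 := by
        rw [norm_pow, Complex.norm_real, norm_norm]
      exact this.symm
    rw [h1]
    refine (norm_add_le _ _).trans (add_le_add ?_ ?_)
    · rw [hz, ← ContinuousLinearMap.adjoint_inner_left]
      exact Finset.single_le_sum (f := fun y => ‖⟪ContinuousLinearMap.adjoint C y, (V ^ n) ξ⟫_ℂ‖)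
        (fun _ _ => norm_nonneg _) (htf.mem_toFinset.2 hy)
    · refine (norm_inner_le_norm _ _).trans ?_
      have := hnorm n
      rw [← hz] at this
      gcongr
  have h2 : Tendsto (fun N : ℕ => ∑ y ∈ htf.toFinset,
      (∑ n ∈ range N, ‖⟪ContinuousLinearMap.adjoint C y, (V ^ n) ξ⟫_ℂ‖) / N) atTop (𝓝 0) := by
    have := tendsto_finsetSum htf.toFinset fun y _ =>
      avg_of_sq (fun n => norm_nonneg _) (wm_sq V ξ hξ (ContinuousLinearMap.adjoint C y))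
    simpa using this
  obtain ⟨N0, hN0⟩ := Metric.tendsto_atTop.1 h2 (ε / 2) (by positivity)
  refine ⟨N0, fun N hN => ?_⟩
  have h3 := hN0 N hN
  rw [Real.dist_eq, sub_zero] at h3 ⊢
  rw [abs_of_nonneg (by positivity)]
  rcases Nat.eq_zero_or_pos N with h0 | h0
  · subst h0; simpa using hε
  have hNp : (0 : ℝ) < N := by exact_mod_cast h0
  have h4 : (∑ n ∈ range N, ‖C ((V ^ n) ξ)‖ ^ 2) / N ≤ ∑ y ∈ htf.toFinset,
      (∑ n ∈ range N, ‖⟪ContinuousLinearMap.adjoint C y, (V ^ n) ξ⟫_ℂ‖) / N +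
      ε / 2 / (M + 1) * M := by
    rw [← Finset.sum_div, div_add' _ _ _ hNp.ne', div_le_div_iff_of_pos_right hNp]
    refine (Finset.sum_le_sum fun n _ => hpt n).trans (le_of_eq ?_)
    rw [Finset.sum_add_distrib, Finset.sum_comm, Finset.sum_const, card_range, nsmul_eq_mul]
    ring
  have h5 : ε / 2 / (M + 1) * M ≤ ε / 2 := by
    have hM0 : 0 ≤ M := by positivity
    rw [div_mul_eq_mul_div, div_le_iff₀ (by positivity)]
    nlinarith
  have h6 := le_abs_self (∑ y ∈ htf.toFinset,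
      (∑ n ∈ range N, ‖⟪ContinuousLinearMap.adjoint C y, (V ^ n) ξ⟫_ℂ‖) / N)
  linarith

end Run7.h896.CF
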